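import Pool.Agent.CAN.GFI
import Pool.Agent.CAN.SFI
import Pool.Agent.CAN.HZ
import Pool.Agent.CAN.E4B
import Pool.Agent.CAN.HC

/-!
MP_3f589b_lc, Q1: there is a countable transitive model of ZFC in which CH holds, every Aronszajn
tree is special, and there is no stationarity-detecting tree (canary tree).
The definitions of the statement are in `Pool/Agent/CAN/Goal.lean` and `Pool/Agent/FBZ/Base.lean`.
-/

set_option autoImplicit false

namespace Pool.Agent.Results.MP_3f589b_lc.SpecialTreesNoCanary

open Pool.Agent.CAN

/-- there is a countable transitive model of ZFC + CH in which every Aronszajn tree is special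
and there is no stationarity-detecting tree -/
theorem result : ∃ N : Set ZFSet.{0}, Model N := by
  obtain ⟨B, iB, hB⟩ := exists_facts (recursion TI Kd) specStep
  exact model_of_facts B hB

end Pool.Agent.Results.MP_3f589b_lc.SpecialTreesNoCanary
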